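import Mathlib
import Pool.Agent.H28.Steiner.DF

set_option autoImplicit false

/-!
Steiner systems `S(n, k, 2)` from base blocks over several copies of `ZMod p`, with fixed extra
points and a hole filled by a smaller system.
-/

namespace Pool.Agent.SteinerMC

open Finset Pool.Agent.H28.Steiner

/-- A list of blocks which can be put on `f` points. -/
def HoleOK (f k : ℕ) : Prop :=
  ∃ H : List (Finset (Fin f)), (∀ b ∈ H, b.card ≤ k) ∧ H.length * (k * (k - 1)) = f * (f - 1) ∧
    ∀ a c : Fin f, a ≠ c → ∃ b ∈ H, a ∈ b ∧ c ∈ b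

lemma holeOK_zero (k : ℕ) : HoleOK 0 k :=
  ⟨[], by simp, by simp, fun a => a.elim0⟩

lemma holeOK_one (k : ℕ) : HoleOK 1 k :=
  ⟨[], by simp, by simp, fun a c h => absurd (Subsingleton.elim a c) h⟩

lemma holeOK_self (k : ℕ) : HoleOK k k :=
  ⟨[univ], by simp, by simp, fun a c _ => ⟨univ, by simp, by simp, by simp⟩⟩

lemma holeOK_of_steiner {f k : ℕ} (h : SteinerSystemExists f k 2) : HoleOK f k := by
  classical
  obtain ⟨B, hB1, hB2⟩ := h
  obtain ⟨B', hB'⟩ : ∃ B' : Finset (Finset (Fin f)), B' = univ.filter (fun b => b ∈ B) := ⟨_, rfl⟩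
  have hmem : ∀ b, b ∈ B' ↔ b ∈ B := by
    intro b; rw [hB', mem_filter]; simp
  have hex : ∀ a c : Fin f, a ≠ c → ∃! b, b ∈ B ∧ a ∈ b ∧ c ∈ b := by
    intro a c hac
    obtain ⟨b, ⟨h1, h2⟩, h3⟩ := hB2 {a, c} (card_pair hac)
    refine ⟨b, ⟨h1, h2 (by simp), h2 (by simp)⟩, ?_⟩
    rintro b' ⟨h4, h5, h6⟩
    apply h3
    refine ⟨h4, ?_⟩
    intro x hx
    rw [mem_insert, mem_singleton] at hx
    rcases hx with rfl | rfl
    · exact h5
    · exact h6
  have hcount : B'.card * (k * (k - 1)) = f * (f - 1) := by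
    have h1 : (univ : Finset (Fin f)).offDiag = B'.biUnion (fun b => b.offDiag) := by
      ext ⟨x, y⟩
      rw [mem_offDiag, mem_biUnion]
      constructor
      · rintro ⟨_, _, hxy⟩
        obtain ⟨b, ⟨hb, hx, hy⟩, _⟩ := hex x y hxy
        exact ⟨b, (hmem b).2 hb, mem_offDiag.2 ⟨hx, hy, hxy⟩⟩
      · rintro ⟨b, _, hb⟩
        exact ⟨mem_univ _, mem_univ _, (mem_offDiag.1 hb).2.2⟩
    have h2 : (B'.biUnion (fun b => b.offDiag)).card = ∑ b ∈ B', b.offDiag.card := by
      apply card_biUnion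
      intro b hb b' hb' hne
      change Disjoint b.offDiag b'.offDiag
      rw [disjoint_left]
      rintro ⟨x, y⟩ h3 h4
      rw [mem_offDiag] at h3 h4
      obtain ⟨b0, _, hu⟩ := hex x y h3.2.2
      exact hne ((hu b ⟨(hmem b).1 hb, h3.1, h3.2.1⟩).trans
        (hu b' ⟨(hmem b').1 hb', h4.1, h4.2.1⟩).symm)
    have h3 : ∑ b ∈ B', b.offDiag.card = ∑ _b ∈ B', k * (k - 1) := by
      apply sum_congr rfl
      intro b hb
      rw [offDiag_card, hB1 b ((hmem b).1 hb), Nat.mul_sub, mul_one]
    have h4 : (univ : Finset (Fin f)).offDiag.card = f * (f - 1) := by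
      rw [offDiag_card, card_univ, Fintype.card_fin, Nat.mul_sub, mul_one]
    rw [← h4, h1, h2, h3, sum_const, smul_eq_mul]
  refine ⟨B'.toList, ?_, ?_, ?_⟩
  · intro b hb
    rw [mem_toList, hmem] at hb
    exact (hB1 b hb).le
  · rw [length_toList]; exact hcount
  · intro a c hac
    obtain ⟨b, ⟨h1, h2, h3⟩, _⟩ := hex a c hac
    exact ⟨b, by rw [mem_toList, hmem]; exact h1, h2, h3⟩

/-- class of an ordered pair of coded points -/
def cls (p c f x y : ℕ) : ℕ :=
  Nat.rec
    (Nat.add (Nat.mul (Nat.mul c c) p) (Nat.mul c f))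
    (fun _ _ => Nat.rec
      (Nat.add (Nat.mul (Nat.mul c c) p) (Nat.add (Nat.mul (Nat.div x p) f)
        (Nat.sub y (Nat.mul p c))))
      (fun _ _ => Nat.add (Nat.mul (Nat.add (Nat.mul (Nat.div x p) c) (Nat.div y p)) p)
        (Nat.mod (Nat.add (Nat.mod y p) (Nat.sub p (Nat.mod x p))) p))
      (Nat.sub (Nat.mul p c) y))
    (Nat.sub (Nat.mul p c) x)

lemma cls_ext (p c f x y : ℕ) (hx : p * c ≤ x) : cls p c f x y = c * c * p + c * f := by
  have : Nat.sub (Nat.mul p c) x = 0 := Nat.sub_eq_zero_of_le hx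
  unfold cls
  rw [this]
  rfl

lemma cls_mix (p c f x y : ℕ) (hx : x < p * c) (hy : p * c ≤ y) :
    cls p c f x y = c * c * p + (x / p * f + (y - p * c)) := by
  obtain ⟨n, hn⟩ : ∃ n, Nat.sub (Nat.mul p c) x = n + 1 :=
    ⟨p * c - x - 1, by change p * c - x = _; omega⟩
  have h0 : Nat.sub (Nat.mul p c) y = 0 := Nat.sub_eq_zero_of_le hy
  unfold cls
  rw [hn, h0]
  rfl

lemma cls_in (p c f x y : ℕ) (hx : x < p * c) (hy : y < p * c) :
    cls p c f x y = (x / p * c + y / p) * p + (y % p + (p - x % p)) % p := by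
  obtain ⟨n, hn⟩ : ∃ n, Nat.sub (Nat.mul p c) x = n + 1 :=
    ⟨p * c - x - 1, by change p * c - x = _; omega⟩
  obtain ⟨m, hm⟩ : ∃ n, Nat.sub (Nat.mul p c) y = n + 1 :=
    ⟨p * c - y - 1, by change p * c - y = _; omega⟩
  unfold cls
  rw [hn, hm]
  rfl

/-- all entries are below `n` -/
noncomputable def allLt (n : ℕ) (base : List (List ℕ)) : Bool :=
  List.rec true (fun A _ ih => and (List.rec true (fun x _ jh => and (Nat.blt x n) jh) A) ih) base

lemma allLt_spec (n : ℕ) (base : List (List ℕ)) (h : allLt n base = true) :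
    ∀ A ∈ base, ∀ x ∈ A, x < n := by
  have inner : ∀ A : List ℕ, (List.rec true (fun x _ jh => and (Nat.blt x n) jh) A : Bool) = true →
      ∀ x ∈ A, x < n := by
    intro A
    induction A with
    | nil => intro _ x hx; exact absurd hx (by simp)
    | cons y A ih =>
      intro h x hx
      have h' : (Nat.blt y n &&
        (List.rec true (fun x _ jh => and (Nat.blt x n) jh) A : Bool)) = true := h
      rw [Bool.and_eq_true] at h'
      rcases List.mem_cons.1 hx with rfl | hx
      · exact of_eq_true (Nat.blt_eq ▸ eq_true h'.1)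
      · exact ih h'.2 x hx
  induction base with
  | nil => intro A hA; exact absurd hA (by simp)
  | cons B L ih =>
    have h' : ((List.rec true (fun x _ jh => and (Nat.blt x n) jh) B : Bool) &&
      allLt n L) = true := h
    rw [Bool.and_eq_true] at h'
    intro A hA
    rcases List.mem_cons.1 hA with rfl | hA
    · exact inner _ h'.1
    · exact ih h'.2 A hA

/-- the full check -/
noncomputable def mcCheck (p c f k m : ℕ) (base : List (List ℕ)) : Bool :=
  and (allLen k base) (and (Nat.beq (llen base) m) (and (allLt (Nat.add (Nat.mul p c) f) base)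
    (Nat.beq (Nat.mod (allMask (cls p c f) base)
        (Nat.pow 2 (Nat.add (Nat.mul (Nat.mul c c) p) (Nat.mul c f))))
      (Nat.sub (Nat.pow 2 (Nat.add (Nat.mul (Nat.mul c c) p) (Nat.mul c f))) 1))))

section

variable (p c f : ℕ)

/-- points -/
abbrev Pt (p c f : ℕ) := (Fin c × ZMod p) ⊕ Fin f

/-- decode a natural number -/
def dec (hc : 0 < c) (x : ℕ) : Pt p c f :=
  if h : p * c ≤ x ∧ x - p * c < f then Sum.inr ⟨x - p * c, h.2⟩
  else Sum.inl (⟨x / p % c, Nat.mod_lt _ hc⟩, (x : ZMod p))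

lemma dec_ext (hc : 0 < c) (e : Fin f) (x : ℕ) (hx : x = p * c + e) :
    dec p c f hc x = Sum.inr e := by
  subst hx
  have h : p * c ≤ p * c + (e : ℕ) ∧ p * c + (e : ℕ) - p * c < f := ⟨by omega, by omega⟩
  unfold dec
  rw [dif_pos h]
  congr 1
  exact Fin.ext (by simp)

lemma dec_in (hc : 0 < c) (x : ℕ) (hx : x < p * c) (i : Fin c) (hi : x / p = i) :
    dec p c f hc x = Sum.inl (i, (x : ZMod p)) := by
  have h : ¬ (p * c ≤ x ∧ x - p * c < f) := by omega
  unfold dec
  rw [dif_neg h]
  congr 2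
  apply Fin.ext
  change x / p % c = i
  rw [hi, Nat.mod_eq_of_lt i.2]

/-- translation -/
def trn (t : ZMod p) : Pt p c f → Pt p c f :=
  Sum.map (fun q => (q.1, q.2 + t)) id

/-- a translate of a coded block -/
def blk (hc : 0 < c) (t : ZMod p) (A : List ℕ) : Finset (Pt p c f) :=
  (A.map (fun x => trn p c f t (dec p c f hc x))).toFinset

lemma blk_card (hc : 0 < c) (t : ZMod p) (A : List ℕ) :
    (blk p c f hc t A).card ≤ A.length := by
  unfold blk
  exact (List.toFinset_card_le _).trans (List.length_map _).le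

lemma mem_blk (hc : 0 < c) (t : ZMod p) (A : List ℕ) (x : ℕ) (hx : x ∈ A) :
    trn p c f t (dec p c f hc x) ∈ blk p c f hc t A := by
  unfold blk
  rw [List.mem_toFinset]
  exact List.mem_map.2 ⟨x, hx, rfl⟩

end

lemma div_lt_of_lt {p c x : ℕ} (h : x < p * c) : x / p < c := by
  rcases Nat.eq_zero_or_pos p with rfl | hp
  · simp at h
  · exact (Nat.div_lt_iff_lt_mul hp).2 (by rw [mul_comm]; exact h)

lemma class_inj {c p i j d i' j' d' : ℕ} (hj : j < c) (hd : d < p)
    (hj' : j' < c) (hd' : d' < p) (h : (i * c + j) * p + d = (i' * c + j') * p + d') :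
    i = i' ∧ j = j' ∧ d = d' := by
  have hp : 0 < p := lt_of_le_of_lt (Nat.zero_le _) hd
  have hc : 0 < c := lt_of_le_of_lt (Nat.zero_le _) hj
  have h1 : i * c + j = i' * c + j' := by
    have := congrArg (fun z => z / p) h
    rw [mul_comm _ p, Nat.mul_add_div hp, Nat.div_eq_of_lt hd, mul_comm _ p, Nat.mul_add_div hp,
      Nat.div_eq_of_lt hd'] at this
    exact this
  have h2 : d = d' := by
    rw [h1] at h
    exact Nat.add_left_cancel h
  have h3 : i = i' := by
    have := congrArg (fun z => z / c) h1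
    rw [mul_comm _ c, Nat.mul_add_div hc, Nat.div_eq_of_lt hj, mul_comm _ c, Nat.mul_add_div hc,
      Nat.div_eq_of_lt hj'] at this
    exact this
  refine ⟨h3, ?_, h2⟩
  rw [h3] at h1
  exact Nat.add_left_cancel h1

lemma class_lt {c p i j d : ℕ} (hi : i < c) (hj : j < c) (hd : d < p) :
    (i * c + j) * p + d < c * c * p := by
  have h1 : i * c + j + 1 ≤ c * c := by
    calc i * c + j + 1 ≤ i * c + c := by omega
      _ = (i + 1) * c := by ring
      _ ≤ c * c := Nat.mul_le_mul_right c hi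
  calc (i * c + j) * p + d < (i * c + j) * p + p := by omega
    _ = (i * c + j + 1) * p := by ring
    _ ≤ c * c * p := Nat.mul_le_mul_right p h1

/-- Multi-copy difference families with a hole. -/
theorem steiner_of_mc (p c f k m : ℕ) (hp : 0 < p) (hc : 0 < c) (hk : 2 ≤ k)
    (hH : HoleOK f k) (base : List (List ℕ))
    (hcount : m * p * (k * (k - 1)) + f * (f - 1) = (p * c + f) * (p * c + f - 1))
    (hchk : mcCheck p c f k m base = true) : SteinerSystemExists (p * c + f) k 2 := by
  classical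
  have : NeZero p := ⟨hp.ne'⟩
  -- unpack the check
  unfold mcCheck at hchk
  have e1 : ∀ a b : Bool, and a b = true → a = true ∧ b = true := by
    intro a b h; exact Bool.and_eq_true_iff.1 h
  obtain ⟨h1, h2⟩ := e1 _ _ hchk
  obtain ⟨h2, h3⟩ := e1 _ _ h2
  obtain ⟨h3, h4⟩ := e1 _ _ h3
  have hlen6 := allLen_spec k base h1
  have hm : base.length = m := by
    rw [← llen_eq]; exact Nat.eq_of_beq_eq_true h2
  have hlt : ∀ A ∈ base, ∀ x ∈ A, x < p * c + f := allLt_spec _ base h3
  have hmask : allMask (cls p c f) base % 2 ^ (c * c * p + c * f) =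
      2 ^ (c * c * p + c * f) - 1 := Nat.eq_of_beq_eq_true h4
  have hbit : ∀ i < c * c * p + c * f, ∃ A ∈ base, ∃ x ∈ A, ∃ y ∈ A, cls p c f x y = i := by
    intro i hi
    apply allMask_testBit
    have h5 : (allMask (cls p c f) base % 2 ^ (c * c * p + c * f)).testBit i = true := by
      rw [hmask, Nat.testBit_two_pow_sub_one]
      exact decide_eq_true hi
    rw [Nat.testBit_mod_two_pow] at h5
    exact (Bool.and_eq_true_iff.1 h5).2
  -- differences between copies
  have hdiff : ∀ (i j : Fin c) (x y : ZMod p), ∃ A ∈ base, ∃ u ∈ A, ∃ w ∈ A, ∃ t : ZMod p,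
      trn p c f t (dec p c f hc u) = Sum.inl (i, x) ∧
      trn p c f t (dec p c f hc w) = Sum.inl (j, y) := by
    intro i j x y
    obtain ⟨A, hA, u, hu, w, hw, hcl⟩ := hbit ((i * c + j) * p + (y - x).val)
      (lt_of_lt_of_le (class_lt i.2 j.2 (ZMod.val_lt _)) (Nat.le_add_right _ _))
    have hu' := hlt A hA u hu
    have hw' := hlt A hA w hw
    have hlt0 := class_lt i.2 j.2 (ZMod.val_lt (y - x))
    have hu2 : u < p * c := by
      by_contra hcon
      rw [cls_ext p c f u w (not_lt.1 hcon)] at hcl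
      omega
    have hw2 : w < p * c := by
      by_contra hcon
      rw [cls_mix p c f u w hu2 (not_lt.1 hcon)] at hcl
      omega
    rw [cls_in p c f u w hu2 hw2] at hcl
    obtain ⟨q1, q2, q3⟩ := class_inj (div_lt_of_lt hw2) (Nat.mod_lt _ hp) j.2 (ZMod.val_lt _) hcl
    have q4 : (y - x : ZMod p) = (w : ZMod p) - (u : ZMod p) := by
      have h5 : ((w % p + (p - u % p) : ℕ) : ZMod p) = (w : ZMod p) - (u : ZMod p) := by
        rw [Nat.cast_add, Nat.cast_sub (Nat.mod_lt _ hp).le, ZMod.natCast_mod, ZMod.natCast_mod,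
          ZMod.natCast_self]
        ring
      rw [← h5, ← ZMod.natCast_mod, q3, ZMod.natCast_val, ZMod.cast_id', id]
    refine ⟨A, hA, u, hu, w, hw, x - (u : ZMod p), ?_, ?_⟩
    · rw [dec_in p c f hc u hu2 i q1]
      change Sum.inl (i, (u : ZMod p) + (x - (u : ZMod p))) = _
      rw [add_sub_cancel]
    · rw [dec_in p c f hc w hw2 j q2]
      change Sum.inl (j, (w : ZMod p) + (x - (u : ZMod p))) = _
      congr 2
      have : (w : ZMod p) = (y - x) + (u : ZMod p) := by rw [q4]; ring
      rw [this]; ring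
  have hmix : ∀ (i : Fin c) (x : ZMod p) (e : Fin f), ∃ A ∈ base, ∃ u ∈ A, ∃ w ∈ A, ∃ t : ZMod p,
      trn p c f t (dec p c f hc u) = Sum.inl (i, x) ∧
      trn p c f t (dec p c f hc w) = Sum.inr e := by
    intro i x e
    have hie : (i : ℕ) * f + e < c * f := by
      calc (i : ℕ) * f + e < i * f + f := by omega
        _ = (i + 1) * f := by ring
        _ ≤ c * f := Nat.mul_le_mul_right f i.2
    obtain ⟨A, hA, u, hu, w, hw, hcl⟩ := hbit (c * c * p + (i * f + e)) (by omega)
    have hu' := hlt A hA u hu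
    have hw' := hlt A hA w hw
    have hu2 : u < p * c := by
      by_contra hcon
      rw [cls_ext p c f u w (not_lt.1 hcon)] at hcl
      omega
    have hw2 : p * c ≤ w := by
      by_contra hcon
      rw [cls_in p c f u w hu2 (not_le.1 hcon)] at hcl
      have := class_lt (div_lt_of_lt hu2) (div_lt_of_lt (not_le.1 hcon))
        (Nat.mod_lt (w % p + (p - u % p)) hp)
      omega
    rw [cls_mix p c f u w hu2 hw2] at hcl
    have hcl2 : u / p * f + (w - p * c) = i * f + e := Nat.add_left_cancel hcl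
    have hfp : 0 < f := lt_of_le_of_lt (Nat.zero_le _) e.2
    have hwf : w - p * c < f := by omega
    have q1 : u / p = i := by
      have := congrArg (fun z => z / f) hcl2
      rw [mul_comm _ f, Nat.mul_add_div hfp, Nat.div_eq_of_lt hwf, mul_comm _ f,
        Nat.mul_add_div hfp, Nat.div_eq_of_lt e.2] at this
      exact this
    have q2 : w - p * c = e := by
      rw [q1] at hcl2
      exact Nat.add_left_cancel hcl2
    refine ⟨A, hA, u, hu, w, hw, x - (u : ZMod p), ?_, ?_⟩
    · rw [dec_in p c f hc u hu2 i q1]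
      change Sum.inl (i, (u : ZMod p) + (x - (u : ZMod p))) = _
      rw [add_sub_cancel]
    · rw [dec_ext p c f hc e w (by omega)]
      rfl
  obtain ⟨H, hH1, hH2, hH3⟩ := hH
  have hPcard : Fintype.card (Pt p c f) = p * c + f := by
    rw [Fintype.card_sum, Fintype.card_prod, Fintype.card_fin, Fintype.card_fin, ZMod.card,
      mul_comm]
  refine exists_of_cover hPcard hk
    ((base.flatMap (fun A => (univ : Finset (ZMod p)).toList.map (fun t => blk p c f hc t A))) ++
      H.map (fun b => b.map ⟨Sum.inr, Sum.inr_injective⟩)) ?_ ?_ ?_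
  · intro b hb
    rw [List.mem_append] at hb
    rcases hb with h | h
    · obtain ⟨A, hA, h⟩ := List.mem_flatMap.1 h
      obtain ⟨t, _, rfl⟩ := List.mem_map.1 h
      exact (blk_card p c f hc t A).trans (hlen6 A hA).le
    · obtain ⟨b', hb', rfl⟩ := List.mem_map.1 h
      rw [card_map]
      exact hH1 b' hb'
  · rw [List.length_append, List.length_map, List.length_flatMap]
    have h5 : (base.map (fun A => ((univ : Finset (ZMod p)).toList.map
        (fun t => blk p c f hc t A)).length)).sum = m * p := by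
      have h6 : (fun A : List ℕ => ((univ : Finset (ZMod p)).toList.map
        (fun t => blk p c f hc t A)).length) = fun _ => p := by
        funext A
        rw [List.length_map, length_toList, card_univ, ZMod.card]
      rw [h6, List.map_const', List.sum_replicate, smul_eq_mul, hm]
    rw [h5, add_mul, hH2, hcount]
  · have key1 : ∀ A ∈ base, ∀ t : ZMod p, blk p c f hc t A ∈
        ((base.flatMap (fun A => (univ : Finset (ZMod p)).toList.map
          (fun t => blk p c f hc t A))) ++ H.map (fun b => b.map ⟨Sum.inr, Sum.inr_injective⟩)) := by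
      intro A hA t
      rw [List.mem_append]
      left
      exact List.mem_flatMap.2 ⟨A, hA, List.mem_map.2 ⟨t, by simp, rfl⟩⟩
    rintro (⟨i, x⟩ | e) (⟨j, y⟩ | e') hne
    · obtain ⟨A, hA, u, hu, w, hw, t, h5, h6⟩ := hdiff i j x y
      refine ⟨blk p c f hc t A, key1 A hA t, ?_, ?_⟩
      · rw [← h5]; exact mem_blk p c f hc t A u hu
      · rw [← h6]; exact mem_blk p c f hc t A w hw
    · obtain ⟨A, hA, u, hu, w, hw, t, h5, h6⟩ := hmix i x e'
      refine ⟨blk p c f hc t A, key1 A hA t, ?_, ?_⟩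
      · rw [← h5]; exact mem_blk p c f hc t A u hu
      · rw [← h6]; exact mem_blk p c f hc t A w hw
    · obtain ⟨A, hA, u, hu, w, hw, t, h5, h6⟩ := hmix j y e
      refine ⟨blk p c f hc t A, key1 A hA t, ?_, ?_⟩
      · rw [← h6]; exact mem_blk p c f hc t A w hw
      · rw [← h5]; exact mem_blk p c f hc t A u hu
    · have hee : e ≠ e' := fun h => hne (by rw [h])
      obtain ⟨b, hb, h5, h6⟩ := hH3 e e' hee
      refine ⟨b.map ⟨Sum.inr, Sum.inr_injective⟩, ?_, ?_, ?_⟩
      · rw [List.mem_append]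
        right
        exact List.mem_map.2 ⟨b, hb, rfl⟩
      · rw [mem_map]; exact ⟨e, h5, rfl⟩
      · rw [mem_map]; exact ⟨e', h6, rfl⟩

end Pool.Agent.SteinerMC
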