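import Mathlib
import Pool.Agent.SteinerMC.Basic
import Pool.Agent.H28.Steiner.Rec

set_option autoImplicit false

/-!
Incomplete designs (with a hole) and the singular indirect product.
-/

namespace Pool.Agent.SteinerMC

open Finset Pool.Agent.H28.Steiner

/-- `N` blocks of size at most `k` on `P ⊕ Q` which cover every pair with at least one point in
`P`. -/
def ICover (k N : ℕ) (P Q : Type) : Prop :=
  ∃ L : List (Finset (P ⊕ Q)), (∀ b ∈ L, b.card ≤ k) ∧ L.length = N ∧
    ∀ (x : P) (y : P ⊕ Q), Sum.inl x ≠ y → ∃ b ∈ L, Sum.inl x ∈ b ∧ y ∈ b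

theorem ICover.congr {k N : ℕ} {P Q P' Q' : Type} (e : P ≃ P') (e' : Q ≃ Q')
    (h : ICover k N P Q) : ICover k N P' Q' := by
  obtain ⟨L, h1, h2, h3⟩ := h
  obtain ⟨E, hE⟩ : ∃ E : (P ⊕ Q) ≃ (P' ⊕ Q'), E = Equiv.sumCongr e e' := ⟨_, rfl⟩
  refine ⟨L.map (fun b => b.map E.toEmbedding), ?_, ?_, ?_⟩
  · intro b hb
    obtain ⟨c, hc, rfl⟩ := List.mem_map.1 hb
    rw [card_map]
    exact h1 c hc
  · rw [List.length_map, h2]
  · intro x y hxy
    have hx : E (Sum.inl (e.symm x)) = Sum.inl x := by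
      rw [hE]
      change Sum.inl (e (e.symm x)) = _
      rw [Equiv.apply_symm_apply]
    obtain ⟨b, hb, h4, h5⟩ := h3 (e.symm x) (E.symm y) (by
      intro h
      apply hxy
      rw [← hx, h, Equiv.apply_symm_apply])
    refine ⟨b.map E.toEmbedding, List.mem_map.2 ⟨b, hb, rfl⟩, ?_, ?_⟩
    · rw [← hx]
      exact mem_map.2 ⟨_, h4, rfl⟩
    · exact mem_map.2 ⟨_, h5, E.apply_symm_apply y⟩

/-- Incomplete designs from base blocks over copies of `ZMod p` and fixed extra points. -/
theorem icover_of_mc (p c f k m : ℕ) (hp : 0 < p) (hc : 0 < c) (base : List (List ℕ))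
    (hchk : mcCheck p c f k m base = true) : ICover k (m * p) (Fin c × ZMod p) (Fin f) := by
  classical
  have : NeZero p := ⟨hp.ne'⟩
  -- unpack the check
  unfold mcCheck at hchk
  have e1 : ∀ a b : Bool, and a b = true → a = true ∧ b = true := by
    intro a b h; exact Bool.and_eq_true_iff.1 h
  obtain ⟨h1, h2⟩ := e1 _ _ hchk
  obtain ⟨h2, h3⟩ := e1 _ _ h2
  obtain ⟨h3, h4⟩ := e1 _ _ h3
  have hlen6 := allLen_spec k base h1
  have hm : base.length = m := by
    rw [← llen_eq]; exact Nat.eq_of_beq_eq_true h2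
  have hlt : ∀ A ∈ base, ∀ x ∈ A, x < p * c + f := allLt_spec _ base h3
  have hmask : allMask (cls p c f) base % 2 ^ (c * c * p + c * f) =
      2 ^ (c * c * p + c * f) - 1 := Nat.eq_of_beq_eq_true h4
  have hbit : ∀ i < c * c * p + c * f, ∃ A ∈ base, ∃ x ∈ A, ∃ y ∈ A, cls p c f x y = i := by
    intro i hi
    apply allMask_testBit
    have h5 : (allMask (cls p c f) base % 2 ^ (c * c * p + c * f)).testBit i = true := by
      rw [hmask, Nat.testBit_two_pow_sub_one]
      exact decide_eq_true hi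
    rw [Nat.testBit_mod_two_pow] at h5
    exact (Bool.and_eq_true_iff.1 h5).2
  -- differences between copies
  have hdiff : ∀ (i j : Fin c) (x y : ZMod p), ∃ A ∈ base, ∃ u ∈ A, ∃ w ∈ A, ∃ t : ZMod p,
      trn p c f t (dec p c f hc u) = Sum.inl (i, x) ∧
      trn p c f t (dec p c f hc w) = Sum.inl (j, y) := by
    intro i j x y
    obtain ⟨A, hA, u, hu, w, hw, hcl⟩ := hbit ((i * c + j) * p + (y - x).val)
      (lt_of_lt_of_le (class_lt i.2 j.2 (ZMod.val_lt _)) (Nat.le_add_right _ _))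
    have hu' := hlt A hA u hu
    have hw' := hlt A hA w hw
    have hlt0 := class_lt i.2 j.2 (ZMod.val_lt (y - x))
    have hu2 : u < p * c := by
      by_contra hcon
      rw [cls_ext p c f u w (not_lt.1 hcon)] at hcl
      omega
    have hw2 : w < p * c := by
      by_contra hcon
      rw [cls_mix p c f u w hu2 (not_lt.1 hcon)] at hcl
      omega
    rw [cls_in p c f u w hu2 hw2] at hcl
    obtain ⟨q1, q2, q3⟩ := class_inj (div_lt_of_lt hw2) (Nat.mod_lt _ hp) j.2 (ZMod.val_lt _) hcl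
    have q4 : (y - x : ZMod p) = (w : ZMod p) - (u : ZMod p) := by
      have h5 : ((w % p + (p - u % p) : ℕ) : ZMod p) = (w : ZMod p) - (u : ZMod p) := by
        rw [Nat.cast_add, Nat.cast_sub (Nat.mod_lt _ hp).le, ZMod.natCast_mod, ZMod.natCast_mod,
          ZMod.natCast_self]
        ring
      rw [← h5, ← ZMod.natCast_mod, q3, ZMod.natCast_val, ZMod.cast_id', id]
    refine ⟨A, hA, u, hu, w, hw, x - (u : ZMod p), ?_, ?_⟩
    · rw [dec_in p c f hc u hu2 i q1]
      change Sum.inl (i, (u : ZMod p) + (x - (u : ZMod p))) = _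
      rw [add_sub_cancel]
    · rw [dec_in p c f hc w hw2 j q2]
      change Sum.inl (j, (w : ZMod p) + (x - (u : ZMod p))) = _
      congr 2
      have : (w : ZMod p) = (y - x) + (u : ZMod p) := by rw [q4]; ring
      rw [this]; ring
  have hmix : ∀ (i : Fin c) (x : ZMod p) (e : Fin f), ∃ A ∈ base, ∃ u ∈ A, ∃ w ∈ A, ∃ t : ZMod p,
      trn p c f t (dec p c f hc u) = Sum.inl (i, x) ∧
      trn p c f t (dec p c f hc w) = Sum.inr e := by
    intro i x e
    have hie : (i : ℕ) * f + e < c * f := by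
      calc (i : ℕ) * f + e < i * f + f := by omega
        _ = (i + 1) * f := by ring
        _ ≤ c * f := Nat.mul_le_mul_right f i.2
    obtain ⟨A, hA, u, hu, w, hw, hcl⟩ := hbit (c * c * p + (i * f + e)) (by omega)
    have hu' := hlt A hA u hu
    have hw' := hlt A hA w hw
    have hu2 : u < p * c := by
      by_contra hcon
      rw [cls_ext p c f u w (not_lt.1 hcon)] at hcl
      omega
    have hw2 : p * c ≤ w := by
      by_contra hcon
      rw [cls_in p c f u w hu2 (not_le.1 hcon)] at hcl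
      have := class_lt (div_lt_of_lt hu2) (div_lt_of_lt (not_le.1 hcon))
        (Nat.mod_lt (w % p + (p - u % p)) hp)
      omega
    rw [cls_mix p c f u w hu2 hw2] at hcl
    have hcl2 : u / p * f + (w - p * c) = i * f + e := Nat.add_left_cancel hcl
    have hfp : 0 < f := lt_of_le_of_lt (Nat.zero_le _) e.2
    have hwf : w - p * c < f := by omega
    have q1 : u / p = i := by
      have := congrArg (fun z => z / f) hcl2
      rw [mul_comm _ f, Nat.mul_add_div hfp, Nat.div_eq_of_lt hwf, mul_comm _ f,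
        Nat.mul_add_div hfp, Nat.div_eq_of_lt e.2] at this
      exact this
    have q2 : w - p * c = e := by
      rw [q1] at hcl2
      exact Nat.add_left_cancel hcl2
    refine ⟨A, hA, u, hu, w, hw, x - (u : ZMod p), ?_, ?_⟩
    · rw [dec_in p c f hc u hu2 i q1]
      change Sum.inl (i, (u : ZMod p) + (x - (u : ZMod p))) = _
      rw [add_sub_cancel]
    · rw [dec_ext p c f hc e w (by omega)]
      rfl
  refine ⟨base.flatMap (fun A => (univ : Finset (ZMod p)).toList.map (fun t => blk p c f hc t A)),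
    ?_, ?_, ?_⟩
  · intro b hb
    obtain ⟨A, hA, h⟩ := List.mem_flatMap.1 hb
    obtain ⟨t, _, rfl⟩ := List.mem_map.1 h
    exact (blk_card p c f hc t A).trans (hlen6 A hA).le
  · rw [List.length_flatMap]
    have h6 : (fun A : List ℕ => ((univ : Finset (ZMod p)).toList.map
      (fun t => blk p c f hc t A)).length) = fun _ => p := by
      funext A
      rw [List.length_map, length_toList, card_univ, ZMod.card]
    rw [h6, List.map_const', List.sum_replicate, smul_eq_mul, hm]
  · have key1 : ∀ A ∈ base, ∀ t : ZMod p, blk p c f hc t A ∈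
        (base.flatMap (fun A => (univ : Finset (ZMod p)).toList.map
          (fun t => blk p c f hc t A))) := by
      intro A hA t
      exact List.mem_flatMap.2 ⟨A, hA, List.mem_map.2 ⟨t, by simp, rfl⟩⟩
    rintro ⟨i, x⟩ (⟨j, y⟩ | e') _
    · obtain ⟨A, hA, u, hu, w, hw, t, h5, h6⟩ := hdiff i j x y
      refine ⟨blk p c f hc t A, key1 A hA t, ?_, ?_⟩
      · rw [← h5]; exact mem_blk p c f hc t A u hu
      · rw [← h6]; exact mem_blk p c f hc t A w hw
    · obtain ⟨A, hA, u, hu, w, hw, t, h5, h6⟩ := hmix i x e'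
      refine ⟨blk p c f hc t A, key1 A hA t, ?_, ?_⟩
      · rw [← h5]; exact mem_blk p c f hc t A u hu
      · rw [← h6]; exact mem_blk p c f hc t A w hw

/-- Orthogonal arrays may be normalised at one element. -/
theorem OA.normalised {s : ℕ} {G : Type} (h : OA s G) (z : G) :
    ∃ L : Fin s → G × G → G, (∀ i j, i ≠ j → Function.Bijective (fun g => (L i g, L j g))) ∧
      ∀ i, L i (z, z) = z := by
  classical
  obtain ⟨L, hL⟩ := h
  refine ⟨fun i g => Equiv.swap (L i (z, z)) z (L i g), ?_, ?_⟩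
  · intro i j hij
    exact (Equiv.bijective (Equiv.prodCongr (Equiv.swap (L i (z, z)) z)
      (Equiv.swap (L j (z, z)) z))).comp (hL i j hij)
  · intro i
    exact Equiv.swap_apply_left _ _

section sip

variable {k : ℕ} {A B C : Type} (z : A)

/-- the points of the product -/
abbrev SPt (k : ℕ) (A B C : Type) (z : A) : Type :=
  (Fin k × ({a : A // a ≠ z} × B)) ⊕ ((Fin k × B) ⊕ C)

/-- the point in group `i` with coordinates `a`, `b` -/
noncomputable def spt (i : Fin k) (a : A) (b : B) : SPt k A B C z := by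
  classical
  exact if h : a = z then Sum.inr (Sum.inl (i, b)) else Sum.inl (i, (⟨a, h⟩, b))

lemma spt_pos (i : Fin k) (b : B) : (spt z i z b : SPt k A B C z) = Sum.inr (Sum.inl (i, b)) := by
  unfold spt
  rw [dif_pos rfl]

lemma spt_neg (i : Fin k) (a : {a : A // a ≠ z}) (b : B) :
    (spt z i a.1 b : SPt k A B C z) = Sum.inl (i, (a, b)) := by
  unfold spt
  rw [dif_neg a.2]

/-- the embedding of the `i`-th incomplete design -/
def emb (i : Fin k) : (({a : A // a ≠ z} × B) ⊕ (B ⊕ C)) → SPt k A B C z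
  | Sum.inl q => Sum.inl (i, q)
  | Sum.inr (Sum.inl b) => Sum.inr (Sum.inl (i, b))
  | Sum.inr (Sum.inr c) => Sum.inr (Sum.inr c)

/-- The singular indirect product, for a transversal design which is a direct product. -/
theorem sip [Fintype A] [Fintype B] [Fintype C] {N v f : ℕ} (hk : 2 ≤ k) (hA : OA k A)
    (hB : OA k B) (hI : ICover k N ({a : A // a ≠ z} × B) (B ⊕ C))
    (hf : k * Fintype.card B + Fintype.card C = f) (hF : HoleOK f k)
    (hv : k * Fintype.card A * Fintype.card B + Fintype.card C = v)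
    (hcount : ((Fintype.card A * Fintype.card A - 1) * (Fintype.card B * Fintype.card B) + k * N) *
      (k * (k - 1)) + f * (f - 1) = v * (v - 1)) : SteinerSystemExists v k 2 := by
  classical
  obtain ⟨L, hL, hLz⟩ := OA.normalised hA z
  obtain ⟨M, hM⟩ := hB
  obtain ⟨LI, hI1, hI2, hI3⟩ := hI
  obtain ⟨H, hH1, hH2, hH3⟩ := hF
  have hcardF : Fintype.card ((Fin k × B) ⊕ C) = f := by
    rw [Fintype.card_sum, Fintype.card_prod, Fintype.card_fin, hf]
  obtain ⟨eF⟩ : Nonempty (Fin f ≃ ((Fin k × B) ⊕ C)) :=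
    ⟨(Fintype.equivFinOfCardEq hcardF).symm⟩
  have hcardA : Fintype.card {a : A // a ≠ z} = Fintype.card A - 1 := by
    rw [Fintype.card_subtype_compl, Fintype.card_subtype_eq]
  have hApos : 0 < Fintype.card A := Fintype.card_pos_iff.2 ⟨z⟩
  have hV : Fintype.card (SPt k A B C z) = v := by
    rw [Fintype.card_sum, Fintype.card_sum, Fintype.card_prod, Fintype.card_prod,
      Fintype.card_prod, Fintype.card_fin, hcardA, ← hv]
    obtain ⟨a, ha⟩ : ∃ a, Fintype.card A = a + 1 := ⟨_, (Nat.succ_pred_eq_of_pos hApos).symm⟩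
    rw [ha, Nat.add_sub_cancel]
    ring
  -- the three kinds of blocks
  obtain ⟨b1, hb1⟩ : ∃ b1 : (A × A) × (B × B) → Finset (SPt k A B C z),
      b1 = fun g => univ.image (fun i : Fin k => spt z i (L i g.1) (M i g.2)) := ⟨_, rfl⟩
  obtain ⟨L1, hL1⟩ : ∃ L1 : List (Finset (SPt k A B C z)),
      L1 = ((univ.erase (z, z) : Finset (A × A)) ×ˢ (univ : Finset (B × B))).toList.map b1 :=
    ⟨_, rfl⟩
  obtain ⟨L2, hL2⟩ : ∃ L2 : List (Finset (SPt k A B C z)),
      L2 = (univ : Finset (Fin k)).toList.flatMap (fun i => LI.map (fun b => b.image (emb z i))) :=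
    ⟨_, rfl⟩
  obtain ⟨L3, hL3⟩ : ∃ L3 : List (Finset (SPt k A B C z)),
      L3 = H.map (fun b => b.image (fun x => Sum.inr (eF x))) := ⟨_, rfl⟩
  have c1 : L1.length = (Fintype.card A * Fintype.card A - 1) *
      (Fintype.card B * Fintype.card B) := by
    rw [hL1, List.length_map, length_toList, card_product, card_erase_of_mem (mem_univ _),
      card_univ, card_univ, Fintype.card_prod, Fintype.card_prod]
  have c2 : L2.length = k * N := by
    rw [hL2, List.length_flatMap]
    simp only [List.length_map, hI2]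
    rw [List.map_const', List.sum_replicate, length_toList, card_univ, Fintype.card_fin,
      smul_eq_mul]
  have m1 : ∀ g : (A × A) × (B × B), g.1 ≠ (z, z) → b1 g ∈ L1 := by
    intro g hg
    rw [hL1]
    refine List.mem_map.2 ⟨g, ?_, rfl⟩
    rw [mem_toList, mem_product, mem_erase]
    exact ⟨⟨hg, mem_univ _⟩, mem_univ _⟩
  have m2 : ∀ (i : Fin k) (b : Finset (({a : A // a ≠ z} × B) ⊕ (B ⊕ C))), b ∈ LI →
      b.image (emb z i) ∈ L2 := by
    intro i b hb
    rw [hL2]
    exact List.mem_flatMap.2 ⟨i, by simp, List.mem_map.2 ⟨b, hb, rfl⟩⟩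
  have hmem1 : ∀ (g : (A × A) × (B × B)) (i : Fin k) (a : A) (b : B), L i g.1 = a → M i g.2 = b →
      spt z i a b ∈ b1 g := by
    intro g i a b h1 h2
    rw [hb1]
    refine mem_image.2 ⟨i, mem_univ _, ?_⟩
    rw [h1, h2]
  -- covering
  have k1 : ∀ (i j : Fin k) (a : {a : A // a ≠ z}) (a' : A) (b b' : B), i ≠ j →
      ∃ w ∈ L1, (Sum.inl (i, (a, b)) : SPt k A B C z) ∈ w ∧ spt z j a' b' ∈ w := by
    intro i j a a' b b' hij
    obtain ⟨g1, hg1⟩ := (hL i j hij).2 (a.1, a')
    obtain ⟨g2, hg2⟩ := (hM i j hij).2 (b, b')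
    rw [Prod.mk.injEq] at hg1 hg2
    have hne : g1 ≠ (z, z) := by
      rintro rfl
      exact a.2 (hg1.1.symm.trans (hLz i))
    refine ⟨b1 (g1, g2), m1 (g1, g2) hne, ?_, hmem1 (g1, g2) j a' b' hg1.2 hg2.2⟩
    have h1 := hmem1 (g1, g2) i a.1 b hg1.1 hg2.1
    rwa [spt_neg] at h1
  have k2 : ∀ (i : Fin k) (q : {a : A // a ≠ z} × B) (y : ({a : A // a ≠ z} × B) ⊕ (B ⊕ C)),
      Sum.inl q ≠ y → ∃ w ∈ L2, (Sum.inl (i, q) : SPt k A B C z) ∈ w ∧ emb z i y ∈ w := by
    intro i q y hy
    obtain ⟨b, hb, h1, h2⟩ := hI3 q y hy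
    exact ⟨_, m2 i b hb, mem_image.2 ⟨_, h1, rfl⟩, mem_image.2 ⟨_, h2, rfl⟩⟩
  have k3 : ∀ x y : (Fin k × B) ⊕ C, x ≠ y →
      ∃ w ∈ L3, (Sum.inr x : SPt k A B C z) ∈ w ∧ Sum.inr y ∈ w := by
    intro x y hxy
    obtain ⟨b, hb, h1, h2⟩ := hH3 (eF.symm x) (eF.symm y) (fun h => hxy (eF.symm.injective h))
    refine ⟨b.image (fun x => Sum.inr (eF x)), ?_, ?_, ?_⟩
    · rw [hL3]; exact List.mem_map.2 ⟨b, hb, rfl⟩
    · exact mem_image.2 ⟨_, h1, by rw [Equiv.apply_symm_apply]⟩
    · exact mem_image.2 ⟨_, h2, by rw [Equiv.apply_symm_apply]⟩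
  have hall : ∀ (i : Fin k) (q : {a : A // a ≠ z} × B) (y : SPt k A B C z), Sum.inl (i, q) ≠ y →
      ∃ w ∈ L1 ++ (L2 ++ L3), (Sum.inl (i, q) : SPt k A B C z) ∈ w ∧ y ∈ w := by
    rintro i ⟨a, b⟩ y hy
    have up1 : ∀ y : SPt k A B C z, (∃ w ∈ L1, (Sum.inl (i, (a, b)) : SPt k A B C z) ∈ w ∧ y ∈ w) →
        ∃ w ∈ L1 ++ (L2 ++ L3), (Sum.inl (i, (a, b)) : SPt k A B C z) ∈ w ∧ y ∈ w := by
      rintro y ⟨w, hw, h⟩
      exact ⟨w, List.mem_append.2 (Or.inl hw), h⟩
    have up2 : ∀ y : SPt k A B C z, (∃ w ∈ L2, (Sum.inl (i, (a, b)) : SPt k A B C z) ∈ w ∧ y ∈ w) →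
        ∃ w ∈ L1 ++ (L2 ++ L3), (Sum.inl (i, (a, b)) : SPt k A B C z) ∈ w ∧ y ∈ w := by
      rintro y ⟨w, hw, h⟩
      exact ⟨w, List.mem_append.2 (Or.inr (List.mem_append.2 (Or.inl hw))), h⟩
    match y, hy with
    | Sum.inl (j, (a', b')), hy =>
      by_cases hij : i = j
      · subst hij
        exact up2 _ (k2 i (a, b) (Sum.inl (a', b')) (by
          intro h
          apply hy
          rw [Sum.inl.inj h]))
      · have h1 := k1 i j a a'.1 b b' hij
        rw [spt_neg] at h1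
        exact up1 _ h1
    | Sum.inr (Sum.inl (j, b')), _ =>
      by_cases hij : i = j
      · subst hij
        exact up2 _ (k2 i (a, b) (Sum.inr (Sum.inl b')) (by simp))
      · have h1 := k1 i j a z b b' hij
        rw [spt_pos] at h1
        exact up1 _ h1
    | Sum.inr (Sum.inr c), _ =>
      exact up2 _ (k2 i (a, b) (Sum.inr (Sum.inr c)) (by simp))
  refine exists_of_cover hV hk (L1 ++ (L2 ++ L3)) ?_ ?_ ?_
  · intro b hb
    rw [List.mem_append, List.mem_append] at hb
    rcases hb with hb | hb | hb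
    · rw [hL1] at hb
      obtain ⟨g, _, rfl⟩ := List.mem_map.1 hb
      rw [hb1]
      exact card_image_le.trans (by rw [card_univ, Fintype.card_fin])
    · rw [hL2] at hb
      obtain ⟨i, _, hb⟩ := List.mem_flatMap.1 hb
      obtain ⟨c, hc, rfl⟩ := List.mem_map.1 hb
      exact card_image_le.trans (hI1 c hc)
    · rw [hL3] at hb
      obtain ⟨c, hc, rfl⟩ := List.mem_map.1 hb
      exact card_image_le.trans (hH1 c hc)
  · rw [List.length_append, List.length_append, c1, c2, hL3, List.length_map, ← add_assoc,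
      add_mul, hH2]
    exact hcount
  · intro x y hxy
    match x, y, hxy with
    | Sum.inl (i, q), y, hxy => exact hall i q y hxy
    | Sum.inr x, Sum.inl (i, q), hxy =>
      obtain ⟨w, hw, h1, h2⟩ := hall i q (Sum.inr x) (Ne.symm hxy)
      exact ⟨w, hw, h2, h1⟩
    | Sum.inr x, Sum.inr y, hxy =>
      obtain ⟨w, hw, h⟩ := k3 x y (fun e => hxy (congrArg _ e))
      exact ⟨w, List.mem_append.2 (Or.inr (List.mem_append.2 (Or.inr hw))), h⟩

end sip

/-- Version with numbers only. -/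
theorem sip_num {k a b c p n f N v g : ℕ} (hk : 2 ≤ k) (hA : OA k (Fin (a + 1)))
    (hB : OA k (Fin b)) (hI : ICover k N (Fin n × ZMod p) (Fin g)) (hp : 0 < p)
    (hn : n * p = a * b) (hg : g = b + c) (hf : k * b + c = f) (hF : HoleOK f k)
    (hv : k * (a + 1) * b + c = v)
    (hcount : (((a + 1) * (a + 1) - 1) * (b * b) + k * N) * (k * (k - 1)) + f * (f - 1) =
      v * (v - 1)) : SteinerSystemExists v k 2 := by
  classical
  have : NeZero p := ⟨hp.ne'⟩
  have e : Fin n × ZMod p ≃ {x : Fin (a + 1) // x ≠ 0} × Fin b := by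
    apply Fintype.equivOfCardEq
    rw [Fintype.card_prod, Fintype.card_prod, Fintype.card_fin, Fintype.card_fin, ZMod.card,
      Fintype.card_subtype_compl, Fintype.card_subtype_eq, Fintype.card_fin, hn,
      Nat.add_sub_cancel]
  have e' : Fin g ≃ Fin b ⊕ Fin c := by
    apply Fintype.equivOfCardEq
    rw [Fintype.card_sum, Fintype.card_fin, Fintype.card_fin, Fintype.card_fin, hg]
  refine sip (A := Fin (a + 1)) (B := Fin b) (C := Fin c) (z := 0) (N := N) (f := f) hk hA hB
    (hI.congr e e') ?_ hF ?_ ?_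
  · rw [Fintype.card_fin, Fintype.card_fin, hf]
  · rw [Fintype.card_fin, Fintype.card_fin, Fintype.card_fin, hv]
  · rw [Fintype.card_fin, Fintype.card_fin, hcount]

end Pool.Agent.SteinerMC
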