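import Pool.Agent.SteinerMC.Basic

set_option autoImplicit false

namespace Pool.Agent.SteinerMC.S106

open Pool.Agent.H28.Steiner

/-- base blocks over `Z_53` of an `S(106, 6, 2)` on 2 copies of `Z_53` and 0 extra point(s) -/
def base : List (List ℕ) :=
  [[0, 11, 13, 21, 35, 53], [0, 1, 6, 26, 60, 76], [0, 19, 56, 58, 86, 96],
   [0, 4, 7, 16, 73, 104], [0, 23, 72, 84, 101, 105], [0, 17, 55, 62, 63, 81],
   [0, 15, 80, 83, 89, 94]]

theorem ex : SteinerSystemExists 106 6 2 :=
  steiner_of_mc 53 2 0 6 7 (by norm_num) (by norm_num) (by norm_num) (holeOK_zero 6) base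
    (by norm_num) (by decide +kernel)

end Pool.Agent.SteinerMC.S106
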