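import Pool.Agent.SteinerMC.Basic

set_option autoImplicit false

namespace Pool.Agent.SteinerMC.S261

open Pool.Agent.H28.Steiner

/-- base blocks over `Z_29` of an `S(261, 6, 2)` on 9 copies of `Z_29` and 0 extra point(s) -/
def base : List (List ℕ) :=
  [[0, 1, 130, 132, 160, 189], [0, 2, 30, 73, 74, 233], [0, 3, 44, 46, 152, 170],
   [0, 4, 147, 186, 195, 205], [0, 5, 125, 141, 151, 173], [0, 6, 119, 148, 184, 199],
   [0, 7, 183, 201, 248, 252], [0, 8, 33, 91, 220, 223], [0, 9, 98, 114, 236, 237],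
   [0, 10, 63, 90, 94, 150], [0, 11, 103, 111, 246, 258], [0, 12, 107, 108, 180, 209],
   [0, 13, 32, 39, 62, 67], [0, 14, 123, 210, 238, 240], [0, 29, 61, 84, 239, 254],
   [0, 31, 56, 87, 121, 140], [0, 34, 53, 207, 228, 232], [0, 35, 52, 157, 162, 203],
   [0, 36, 51, 145, 206, 229], [0, 37, 79, 99, 139, 213], [0, 38, 85, 137, 158, 243],
   [0, 40, 77, 93, 165, 198], [0, 42, 115, 135, 153, 227], [0, 45, 88, 126, 166, 208],
   [0, 47, 68, 110, 154, 179], [0, 49, 60, 124, 161, 250], [0, 50, 66, 104, 122, 222],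
   [0, 58, 155, 164, 185, 192], [0, 59, 128, 196, 216, 259], [0, 64, 101, 143, 163, 190],
   [0, 65, 80, 174, 204, 231], [0, 69, 144, 200, 224, 244], [0, 70, 127, 202, 217, 251],
   [0, 75, 134, 175, 218, 242], [0, 76, 117, 177, 211, 249], [0, 81, 102, 118, 156, 187],
   [0, 86, 133, 181, 219, 234], [0, 97, 106, 116, 214, 221], [29, 30, 125, 137, 218, 247],
   [29, 32, 185, 195, 211, 227], [29, 34, 75, 98, 110, 191], [29, 35, 148, 189, 194, 235],
   [29, 37, 129, 140, 184, 201], [29, 38, 77, 135, 233, 240], [29, 40, 62, 65, 106, 108],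
   [29, 42, 118, 127, 180, 181], [29, 58, 94, 109, 177, 200], [29, 60, 85, 174, 242, 251],
   [29, 63, 82, 116, 147, 172], [29, 67, 107, 144, 160, 236], [29, 78, 96, 117, 159, 257],
   [29, 88, 158, 178, 215, 238], [29, 90, 113, 203, 244, 249], [29, 99, 173, 179, 206, 243],
   [29, 100, 157, 175, 210, 241], [29, 103, 162, 202, 225, 252], [29, 104, 146, 198, 229, 250],
   [29, 115, 161, 199, 220, 255], [29, 120, 141, 145, 245, 248], [58, 60, 88, 131, 132, 204],
   [58, 65, 219, 223, 241, 259], [58, 66, 91, 149, 191, 194], [58, 67, 156, 172, 207, 208],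
   [58, 69, 161, 169, 217, 229], [58, 70, 165, 166, 180, 238], [58, 71, 90, 97, 120, 125],
   [58, 87, 119, 142, 210, 225], [58, 92, 111, 178, 199, 203], [58, 123, 138, 175, 202, 232],
   [87, 90, 182, 198, 243, 253], [87, 92, 133, 156, 168, 249], [87, 98, 120, 123, 164, 166],
   [87, 116, 152, 167, 235, 258], [87, 118, 143, 213, 222, 232], [87, 148, 171, 174, 215, 220],
   [116, 123, 190, 194, 212, 230], [116, 150, 169, 174, 236, 257], [145, 148, 214, 224, 240, 256]]

theorem ex : SteinerSystemExists 261 6 2 :=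
  steiner_of_mc 29 9 0 6 78 (by norm_num) (by norm_num) (by norm_num) (holeOK_zero 6) base
    (by norm_num) (by decide +kernel)

end Pool.Agent.SteinerMC.S261
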