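import Pool.Agent.SteinerMC.Basic

set_option autoImplicit false

namespace Pool.Agent.SteinerMC.S561

open Pool.Agent.H28.Steiner

/-- base blocks over `Z_97` of an `S(561, 6, 2)` on 5 copies of `Z_97` and 76 extra point(s) -/
def base : List (List ℕ) :=
  [[0, 1, 16, 51, 55, 91], [0, 2, 130, 268, 355, 484], [0, 3, 59, 67, 76, 87],
   [0, 5, 23, 37, 49, 68], [0, 25, 170, 246, 315, 424], [0, 27, 115, 289, 327, 477],
   [0, 97, 194, 291, 388, 485], [0, 98, 100, 228, 366, 453], [0, 99, 259, 301, 411, 546],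
   [0, 101, 209, 292, 410, 501], [0, 102, 244, 298, 419, 516], [0, 103, 243, 337, 429, 505],
   [0, 104, 258, 304, 400, 486], [0, 105, 132, 220, 297, 432], [0, 106, 252, 363, 392, 524],
   [0, 107, 226, 321, 448, 531], [0, 108, 288, 309, 481, 513], [0, 109, 195, 267, 340, 416],
   [0, 110, 281, 380, 443, 552], [0, 111, 237, 330, 436, 518], [0, 112, 276, 344, 414, 556],
   [0, 113, 260, 349, 465, 506], [0, 114, 263, 385, 445, 554], [0, 116, 233, 346, 396, 512],
   [0, 117, 230, 377, 466, 509], [0, 118, 290, 294, 402, 507], [0, 119, 214, 341, 475, 543],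
   [0, 120, 264, 328, 407, 529], [0, 121, 284, 386, 431, 522], [0, 122, 279, 319, 433, 548],
   [0, 123, 248, 329, 401, 536], [0, 124, 204, 335, 394, 541], [0, 125, 206, 375, 459, 533],
   [0, 126, 219, 325, 471, 530], [0, 127, 261, 368, 390, 537], [0, 129, 227, 229, 357, 398],
   [0, 131, 287, 378, 405, 535], [0, 133, 274, 313, 395, 494], [0, 134, 241, 360, 455, 534],
   [0, 135, 285, 293, 320, 408], [0, 136, 218, 308, 441, 488], [0, 137, 251, 303, 425, 557],
   [0, 138, 225, 354, 452, 454], [0, 139, 249, 323, 422, 555], [0, 140, 234, 326, 479, 502],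
   [0, 141, 277, 359, 449, 491], [0, 142, 196, 317, 480, 528], [0, 143, 239, 324, 428, 495],
   [0, 144, 208, 384, 462, 526], [0, 146, 257, 383, 476, 521], [0, 147, 236, 352, 469, 503],
   [0, 148, 203, 358, 420, 487], [0, 149, 271, 331, 468, 551], [0, 150, 255, 282, 370, 447],
   [0, 151, 272, 338, 440, 525], [0, 152, 210, 369, 434, 499], [0, 153, 256, 299, 393, 508],
   [0, 154, 200, 296, 478, 498], [0, 155, 217, 379, 430, 496], [0, 156, 247, 371, 451, 532],
   [0, 157, 197, 311, 460, 560], [0, 158, 183, 231, 307, 473], [0, 159, 224, 372, 427, 493],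
   [0, 160, 202, 312, 483, 558], [0, 161, 240, 318, 438, 523], [0, 162, 213, 365, 423, 490],
   [0, 163, 265, 310, 461, 519], [0, 164, 232, 302, 470, 553], [0, 165, 235, 306, 418, 550],
   [0, 166, 275, 336, 361, 409], [0, 167, 238, 350, 417, 547], [0, 168, 280, 347, 415, 559],
   [0, 169, 253, 376, 404, 542], [0, 171, 270, 333, 472, 549], [0, 172, 273, 381, 464, 504],
   [0, 173, 242, 351, 412, 437], [0, 174, 212, 362, 397, 467], [0, 175, 198, 342, 406, 517],
   [0, 176, 254, 374, 421, 520], [0, 177, 211, 367, 458, 538], [0, 178, 250, 334, 457, 545],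
   [0, 179, 269, 305, 446, 500], [0, 180, 201, 373, 474, 510], [0, 181, 207, 332, 413, 539],
   [0, 182, 286, 343, 389, 489], [0, 184, 216, 314, 316, 444], [0, 186, 205, 322, 435, 515],
   [0, 187, 223, 364, 403, 497], [0, 188, 215, 295, 426, 544], [0, 189, 245, 348, 391, 511],
   [0, 190, 199, 345, 456, 527], [0, 191, 283, 339, 442, 514], [0, 192, 222, 356, 463, 540],
   [0, 193, 278, 382, 439, 492], [97, 98, 113, 148, 152, 188], [97, 100, 156, 164, 173, 184],
   [97, 102, 120, 134, 146, 165], [194, 195, 210, 245, 249, 285], [194, 197, 253, 261, 270, 281],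
   [194, 199, 217, 231, 243, 262], [291, 292, 307, 342, 346, 382], [291, 294, 350, 358, 367, 378],
   [291, 296, 314, 328, 340, 359], [388, 389, 404, 439, 443, 479], [388, 391, 447, 455, 464, 475],
   [388, 393, 411, 425, 437, 456]]

theorem ex (h : SteinerSystemExists 76 6 2) : SteinerSystemExists 561 6 2 :=
  steiner_of_mc 97 5 76 6 106 (by norm_num) (by norm_num) (by norm_num) (holeOK_of_steiner h) base
    (by norm_num) (by decide +kernel)

end Pool.Agent.SteinerMC.S561
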