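import Pool.Agent.SteinerMC.Basic

set_option autoImplicit false

namespace Pool.Agent.SteinerMC.S591

open Pool.Agent.H28.Steiner

/-- base blocks over `Z_103` of an `S(591, 6, 2)` on 5 copies of `Z_103` and 76 extra point(s) -/
def base : List (List ℕ) :=
  [[0, 1, 62, 354, 390, 394], [0, 2, 11, 21, 45, 50], [0, 3, 83, 442, 458, 491],
   [0, 4, 67, 228, 229, 290], [0, 6, 37, 108, 121, 173], [0, 7, 35, 441, 453, 468],
   [0, 8, 89, 242, 267, 299], [0, 12, 27, 109, 177, 184], [0, 13, 65, 413, 444, 510],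
   [0, 16, 49, 156, 176, 179], [0, 17, 47, 360, 378, 404], [0, 18, 44, 258, 275, 305],
   [0, 25, 57, 362, 376, 384], [0, 103, 206, 309, 412, 515], [0, 104, 216, 330, 425, 561],
   [0, 105, 302, 346, 469, 575], [0, 106, 238, 391, 429, 546], [0, 110, 262, 386, 422, 531],
   [0, 111, 269, 385, 476, 539], [0, 112, 226, 321, 514, 573], [0, 113, 230, 405, 428, 576],
   [0, 114, 209, 402, 506, 570], [0, 116, 207, 349, 460, 533], [0, 117, 292, 315, 505, 588],
   [0, 118, 273, 407, 452, 586], [0, 119, 250, 338, 489, 587], [0, 120, 298, 397, 438, 516],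
   [0, 122, 293, 371, 436, 556], [0, 123, 272, 377, 471, 566], [0, 124, 263, 356, 466, 540],
   [0, 125, 260, 403, 464, 527], [0, 126, 213, 326, 443, 582], [0, 128, 208, 396, 426, 517],
   [0, 129, 248, 379, 467, 590], [0, 131, 219, 370, 499, 584], [0, 132, 285, 323, 512, 558],
   [0, 133, 222, 350, 430, 523], [0, 134, 282, 345, 463, 580], [0, 135, 278, 339, 493, 524],
   [0, 137, 237, 382, 417, 557], [0, 138, 236, 373, 473, 548], [0, 139, 232, 342, 494, 537],
   [0, 141, 227, 333, 465, 552], [0, 142, 253, 411, 424, 542], [0, 143, 307, 358, 483, 521],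
   [0, 144, 221, 341, 416, 522], [0, 145, 283, 381, 415, 551], [0, 146, 308, 366, 449, 541],
   [0, 147, 270, 316, 421, 569], [0, 148, 211, 329, 484, 577], [0, 149, 254, 348, 495, 563],
   [0, 151, 280, 399, 427, 578], [0, 152, 276, 312, 508, 543], [0, 153, 294, 380, 486, 555],
   [0, 154, 279, 311, 454, 530], [0, 155, 289, 334, 500, 583], [0, 158, 274, 365, 507, 536],
   [0, 159, 251, 352, 419, 562], [0, 161, 244, 310, 456, 535], [0, 162, 220, 406, 472, 538],
   [0, 164, 215, 340, 475, 518], [0, 166, 284, 336, 470, 589], [0, 168, 247, 369, 437, 547],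
   [0, 169, 212, 374, 432, 544], [0, 170, 266, 322, 414, 568], [0, 171, 249, 314, 496, 553],
   [0, 175, 301, 388, 501, 585], [0, 178, 277, 318, 498, 528], [0, 180, 300, 375, 474, 519],
   [0, 181, 246, 325, 447, 550], [0, 182, 304, 372, 450, 559], [0, 183, 268, 401, 490, 529],
   [0, 186, 252, 398, 457, 532], [0, 188, 218, 410, 435, 526], [0, 189, 295, 324, 477, 549],
   [0, 190, 303, 317, 492, 579], [0, 191, 239, 368, 487, 581], [0, 192, 217, 400, 485, 520],
   [0, 193, 297, 409, 420, 564], [0, 194, 233, 344, 502, 545], [0, 195, 296, 363, 459, 574],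
   [0, 196, 306, 355, 479, 534], [0, 197, 241, 364, 513, 572], [0, 198, 288, 392, 504, 567],
   [0, 199, 255, 347, 448, 565], [0, 201, 235, 335, 480, 560], [0, 202, 243, 320, 440, 525],
   [0, 203, 245, 383, 481, 554], [0, 204, 271, 367, 423, 571], [103, 104, 165, 457, 493, 497],
   [103, 105, 114, 124, 148, 153], [103, 107, 170, 331, 332, 393], [103, 109, 140, 211, 224, 276],
   [103, 111, 192, 345, 370, 402], [103, 115, 130, 212, 280, 287], [103, 119, 152, 259, 279, 282],
   [103, 120, 150, 463, 481, 507], [103, 121, 147, 361, 378, 408], [103, 128, 160, 465, 479, 487],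
   [206, 208, 217, 227, 251, 256], [206, 210, 273, 434, 435, 496], [206, 212, 243, 314, 327, 379],
   [206, 214, 295, 448, 473, 505], [206, 218, 233, 315, 383, 390], [206, 222, 255, 362, 382, 385],
   [206, 224, 250, 464, 481, 511], [309, 311, 320, 330, 354, 359], [309, 315, 346, 417, 430, 482],
   [309, 321, 336, 418, 486, 493], [309, 325, 358, 465, 485, 488], [412, 414, 423, 433, 457, 462]]

theorem ex (h : SteinerSystemExists 76 6 2) : SteinerSystemExists 591 6 2 :=
  steiner_of_mc 103 5 76 6 111 (by norm_num) (by norm_num) (by norm_num) (holeOK_of_steiner h) base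
    (by norm_num) (by decide +kernel)

end Pool.Agent.SteinerMC.S591
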