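import Pool.Agent.SteinerMC.Basic

set_option autoImplicit false

namespace Pool.Agent.SteinerMC.S651

open Pool.Agent.H28.Steiner

/-- base blocks over `Z_217` of an `S(651, 6, 2)` on 3 copies of `Z_217` and 0 extra point(s) -/
def base : List (List ℕ) :=
  [[0, 1, 101, 254, 426, 524], [0, 2, 142, 175, 475, 630], [0, 3, 133, 192, 614, 635],
   [0, 4, 187, 270, 446, 571], [0, 5, 196, 408, 439, 470], [0, 6, 24, 104, 203, 303],
   [0, 7, 556, 561, 598, 624], [0, 8, 153, 165, 243, 582], [0, 9, 55, 152, 247, 445],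
   [0, 10, 95, 198, 232, 606], [0, 11, 286, 432, 500, 648], [0, 13, 218, 234, 597, 600],
   [0, 15, 154, 201, 450, 541], [0, 17, 233, 384, 454, 585], [0, 22, 71, 310, 485, 569],
   [0, 23, 296, 559, 599, 626], [0, 27, 108, 148, 304, 509], [0, 32, 67, 161, 292, 334],
   [0, 36, 164, 358, 495, 638], [0, 37, 289, 364, 419, 504], [0, 39, 131, 388, 405, 507],
   [0, 41, 242, 374, 398, 636], [0, 43, 414, 423, 605, 613], [0, 45, 387, 391, 438, 538],
   [0, 48, 259, 361, 520, 580], [0, 50, 290, 330, 542, 627], [0, 51, 352, 379, 522, 545],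
   [0, 54, 378, 478, 487, 575], [0, 57, 115, 386, 540, 621], [0, 61, 151, 319, 452, 453],
   [0, 62, 217, 249, 340, 589], [0, 68, 355, 399, 424, 649], [0, 70, 229, 283, 306, 469],
   [0, 73, 323, 345, 448, 503], [0, 76, 228, 392, 534, 629], [0, 79, 255, 400, 528, 644],
   [0, 82, 230, 350, 529, 583], [0, 83, 339, 347, 377, 573], [0, 91, 269, 305, 318, 375],
   [0, 93, 219, 265, 293, 401], [0, 105, 220, 223, 285, 381], [0, 106, 368, 415, 563, 622],
   [0, 107, 241, 344, 441, 619], [0, 224, 427, 451, 479, 496], [0, 226, 244, 326, 360, 486],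
   [0, 231, 298, 462, 508, 544], [0, 245, 383, 402, 412, 477], [0, 246, 546, 579, 590, 594],
   [0, 248, 341, 440, 552, 558], [0, 261, 337, 410, 566, 588], [0, 263, 314, 353, 394, 444],
   [0, 281, 464, 537, 539, 615], [0, 282, 315, 456, 535, 560], [0, 291, 420, 515, 572, 623],
   [0, 299, 311, 363, 406, 484], [0, 320, 514, 533, 543, 586], [0, 336, 338, 505, 525, 612],
   [0, 359, 396, 407, 497, 643], [0, 362, 480, 530, 633, 645], [0, 461, 499, 531, 555, 620],
   [217, 218, 336, 428, 507, 542], [217, 222, 237, 350, 376, 578], [217, 238, 447, 460, 566, 584],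
   [217, 248, 456, 505, 539, 546], [217, 322, 510, 526, 540, 587]]

theorem ex : SteinerSystemExists 651 6 2 :=
  steiner_of_mc 217 3 0 6 65 (by norm_num) (by norm_num) (by norm_num) (holeOK_zero 6) base
    (by norm_num) (by decide +kernel)

end Pool.Agent.SteinerMC.S651
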